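import Mathlib
import Pool.Agent.H225R3.MargDefs
import Pool.Agent.W685.AB.Defs
import Pool.Agent.W685.AB.G5

/-!
# Uniform discreteness of arithmetic groups over fields with a large abelian subfield
-/

set_option autoImplicit false

open NumberField Pool.Agent.H225R3.Marg Pool.Agent.W685.AB

namespace Pool.Agent.Results.MP_162bbe_gt.AbelianSubfields

/-- Let `G` be a topological group and `ρ` a continuous finite dimensional complex representation
of `G` (for instance the complexified adjoint representation of a semisimple Lie group). For all
`n` and `E`, the family of all torsion-free subgroups of `G` that are realized by integral matrices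
of size `n` over a number field `k`, with set `S` of noncompact embeddings, where `k` contains an
abelian number field `F` with `|S| * [k : F] ≤ E * [F : ℚ]`, is uniformly discrete.

There is no congruence condition, no condition on small primes and no bound for the degree of `k`.
As `|S| ≤ [k : ℚ]`, the family with `E = d ^ 2` contains all such groups for which `[k : F] ≤ d`;
in particular all such groups over abelian fields `k` are in the family with `E = 1`. If `|S| ≤ s`,
the family contains all such groups for which `[F : ℚ] ^ 2 ≥ (s / E) * [k : ℚ]`. -/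
theorem result {G : Type*} [Group G] [TopologicalSpace G] {M : ℕ}
    (ρ : G →* Matrix (Fin M) (Fin M) ℂ) (hρ : Continuous ρ) (n : ℕ) (E : ℝ) :
    UniformlyDiscrete (AbelianFamily n E ρ) := by
  set E0 : ℝ := max E 1 with hE0
  have hE0pos : 0 < E0 := lt_of_lt_of_le one_pos (le_max_right _ _)
  obtain ⟨ε, hε, h⟩ := gapAb n E0 hE0pos
  refine ⟨_, nhd ρ hρ ε hε, ?_⟩
  rintro Γ ⟨htf, k, _, _, S, R, F, ⟨m, hm, ⟨e⟩⟩, hS⟩ g u hu hΓ
  refine final_step' R htf ε hε g u hu hΓ fun hnil => ?_
  have hunit : IsUnit (R.r ⟨g * u * g⁻¹, hΓ⟩) :=
    (Group.isUnit (⟨g * u * g⁻¹, hΓ⟩ : Γ)).map R.r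
  refine h k S F m e _ hm (hS.trans ?_) hunit (fun σ hσ l hl => R.comp' _ σ hσ l hl) hnil
  exact mul_le_mul_of_nonneg_right (le_max_left _ _) (Nat.cast_nonneg _)

end Pool.Agent.Results.MP_162bbe_gt.AbelianSubfields
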